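import Pool.Agent.X123.NC.Count

/-!
# Near-coincidences between a sequence of exponential growth and the powers of a complex number

In Q1 the pairs `(n, m)` with `|π ^ n - e ^ m| ≤ x` are counted. Here `π ^ n` may be any sequence
`u_n` of complex numbers with `log |u_n| = n log a + O(log n)`, `a > 1`, for example `α ^ n` for a
complex number `α` with `|α| > 1`, or a linear recurrence sequence with a dominating root, and `e` is
replaced by a complex number `β` with `|β| > 1`. The asymptotic formula of the question holds for all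
`β` outside a set of Hausdorff dimension zero, in the complex plane; one set for countably many
sequences, for example for all algebraic `α` and for `α = π, e`.

Proof. If `|u_n - β ^ m| < |β| ^ m (n + m + 1) ^ (- k - 2)` then `β` is close to an `m`-th root of
`u_n`, and there are at most `X ^ 3` such roots with `n + m + 1 ≤ X`; so for `β` outside a set of
dimension `≤ 3 / (k + 1)` there are only finitely many such pairs. For the other pairs with
`|u_n - β ^ m| ≤ x` one has `n log a, m log |β| ≤ log x + O(log log x)`.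
-/

set_option autoImplicit false

namespace Pool.Agent.Results.MP_606be1_nt.AllComplexBasesAndSequences

open Real

/-- The pairs of natural numbers `(n, m)` with `|u_n - β ^ m| ≤ x`. -/
def pairs (u : ℕ → ℂ) (β : ℂ) (x : ℝ) : Set (ℕ × ℕ) := {p | ‖u p.1 - β ^ p.2‖ ≤ x}

/-- For `x ≥ 3` the number of the pairs `(n, m)` with `|u_n - β ^ m| ≤ x` is finite and equal to
`(log x) ^ 2 / (log a * log |β|) + O(log x * (1 + log log x))`. -/
def Asymp (u : ℕ → ℂ) (a : ℝ) (β : ℂ) : Prop :=
  ∃ C : ℝ, ∀ x : ℝ, 3 ≤ x → (pairs u β x).Finite ∧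
    |((pairs u β x).ncard : ℝ) - log x ^ 2 / (log a * log ‖β‖)| ≤ C * (log x * (1 + log (log x)))

theorem asymp_of {u : ℕ → ℂ} {a B : ℝ} (ha : 1 < a)
    (hu : ∀ n : ℕ, |log ‖u n‖ - n * log a| ≤ B * log ((n : ℝ) + 2)) {β : ℂ} (hβ : 1 < ‖β‖)
    (hβu : β ∉ Pool.Agent.X123.NC.exc u) : Asymp u a β := by
  have hu' : ∀ n : ℕ, |log ‖u n‖ - n * log a| ≤ |B| * log ((n : ℝ) + 2) := by
    intro n
    refine (hu n).trans (mul_le_mul_of_nonneg_right (le_abs_self B) (log_nonneg ?_))
    have : (0 : ℝ) ≤ n := Nat.cast_nonneg n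
    linarith
  unfold Pool.Agent.X123.NC.exc at hβu
  rw [Set.mem_iInter] at hβu
  push Not at hβu
  obtain ⟨k, hk⟩ := hβu
  obtain ⟨M, hM⟩ := Pool.Agent.X123.NC.not_near hβ hk
  obtain ⟨C₁, h₁⟩ := Pool.Agent.X123.NC.upper ha hβ (abs_nonneg B) hu' hM
  obtain ⟨C₂, h₂⟩ := Pool.Agent.X123.NC.lower ha hβ (abs_nonneg B) hu'
  refine ⟨max C₁ C₂, fun x hx => ⟨(h₁ x hx).1, ?_⟩⟩
  have h3 := (h₁ x hx).2
  have h4 := h₂ x hx (h₁ x hx).1
  have hL := Pool.Agent.X123.NC.one_lt_log hx
  have h5 : 0 ≤ log x * (1 + log (log x)) := by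
    have := log_nonneg hL
    positivity
  have h6 := mul_le_mul_of_nonneg_right (le_max_left C₁ C₂) h5
  have h7 := mul_le_mul_of_nonneg_right (le_max_right C₁ C₂) h5
  have h8 : (Pool.Agent.X123.NC.pairs u β x) = pairs u β x := rfl
  rw [h8] at h3 h4
  rw [abs_le]
  constructor <;> linarith

/-- **Near-coincidences with the powers of almost all complex numbers.**

(1) Let `u_i`, `i` in a countable set, be sequences of complex numbers with
`|log |u_i(n)| - n log a_i| ≤ B_i log (n + 2)`, `a_i > 1`. There is a set `E` of complex numbers of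
Hausdorff dimension zero such that for every complex number `β` with `|β| > 1` outside `E` and every
`i`, for all `x ≥ 3` the number of the pairs `(n, m)` with `|u_i(n) - β ^ m| ≤ x` is finite and equal
to `(log x) ^ 2 / (log a_i log |β|) + O(log x (1 + log log x))`.

(2) For every countable set `Λ` of complex numbers of absolute value `> 1` there is a set `E` of
complex numbers of Hausdorff dimension zero such that for every complex number `β` with `|β| > 1`
outside `E` and every `α` in `Λ`, for all `x ≥ 3` the number of the pairs `(n, m)` with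
`|α ^ n - β ^ m| ≤ x` is finite and equal to
`(log x) ^ 2 / (log |α| log |β|) + O(log x (1 + log log x))`. -/
theorem result :
    (∀ (I : Type) [Countable I] (u : I → ℕ → ℂ) (a B : I → ℝ), (∀ i, 1 < a i) →
      (∀ i, ∀ n : ℕ, |log ‖u i n‖ - n * log (a i)| ≤ B i * log ((n : ℝ) + 2)) →
      ∃ E : Set ℂ, dimH E = 0 ∧ ∀ β : ℂ, 1 < ‖β‖ → β ∉ E → ∀ i, Asymp (u i) (a i) β) ∧
    ∀ Λ : Set ℂ, Λ.Countable → (∀ α ∈ Λ, 1 < ‖α‖) →
      ∃ E : Set ℂ, dimH E = 0 ∧ ∀ β : ℂ, 1 < ‖β‖ → β ∉ E → ∀ α ∈ Λ,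
        Asymp (fun n => α ^ n) ‖α‖ β := by
  have h1 : ∀ (I : Type) [Countable I] (u : I → ℕ → ℂ) (a B : I → ℝ), (∀ i, 1 < a i) →
      (∀ i, ∀ n : ℕ, |log ‖u i n‖ - n * log (a i)| ≤ B i * log ((n : ℝ) + 2)) →
      ∃ E : Set ℂ, dimH E = 0 ∧ ∀ β : ℂ, 1 < ‖β‖ → β ∉ E → ∀ i, Asymp (u i) (a i) β := by
    intro I _ u a B ha hu
    refine ⟨⋃ i, Pool.Agent.X123.NC.exc (u i), ?_, fun β hβ hβE i => ?_⟩
    · rw [← nonpos_iff_eq_zero, dimH_iUnion]
      exact iSup_le fun i => (Pool.Agent.X123.NC.dim_exc (u i)).le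
    · rw [Set.mem_iUnion] at hβE
      push Not at hβE
      exact asymp_of (ha i) (hu i) hβ (hβE i)
  refine ⟨h1, fun Λ hΛ hα => ?_⟩
  haveI : Countable Λ := hΛ.to_subtype
  obtain ⟨E, hE1, hE2⟩ := h1 Λ (fun α n => (α : ℂ) ^ n) (fun α => ‖(α : ℂ)‖) (fun _ => 0)
    (fun α => hα α α.2) (fun α n => by
      rw [norm_pow, log_pow, sub_self, abs_zero, zero_mul])
  exact ⟨E, hE1, fun β hβ hβE α h => hE2 β hβ hβE ⟨α, h⟩⟩

end Pool.Agent.Results.MP_606be1_nt.AllComplexBasesAndSequences
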