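import Pool.Agent.X173.NCA

/-!
# Near-coincidences of powers: all bases off a set of Hausdorff dimension zero

The number `N(x)` of pairs of natural numbers `(n, m)` with `|a ^ n - b ^ m| ≤ x` is
`(log x) ^ 2 / (log a * log b) + O(log x)` for every `b > 1` and every `a > 1` outside a set
(depending on `b`) of Hausdorff dimension zero.
-/

set_option autoImplicit false

namespace Pool.Agent.Results.MP_606be1_nt.AlmostAllBases

open Real

/-- The pairs of natural numbers `(n, m)` with `|a ^ n - b ^ m| ≤ x`. -/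
def pairs (a b x : ℝ) : Set (ℕ × ℕ) := {p | |a ^ p.1 - b ^ p.2| ≤ x}

/-- For `x ≥ 2` the number of pairs is finite and equal to
`(log x) ^ 2 / (log a * log b) + O(log x)`. -/
def Asymp (a b : ℝ) : Prop :=
  ∃ C : ℝ, ∀ x : ℝ, 2 ≤ x → (pairs a b x).Finite ∧
    |((pairs a b x).ncard : ℝ) - log x ^ 2 / (log a * log b)| ≤ C * log x

/-- For every base `b > 1` the set of the bases `a > 1` for which the asymptotic formula with
error term `O(log x)` fails, for the pair `(a, b)` or for the pair `(b, a)`, has Hausdorff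
dimension zero. -/
theorem result (b : ℝ) (hb : 1 < b) :
    dimH {a : ℝ | 1 < a ∧ (¬ Asymp a b ∨ ¬ Asymp b a)} = 0 := by
  have h : {a : ℝ | 1 < a ∧ (¬ Asymp a b ∨ ¬ Asymp b a)} ⊆
      {a : ℝ | 1 < a ∧ ¬ Pool.Agent.X173.NCA.As a b} := by
    rintro a ⟨ha, h1⟩
    refine ⟨ha, fun h2 => ?_⟩
    rcases h1 with h1 | h1
    · exact h1 h2
    · exact h1 (Pool.Agent.X173.NCA.swap_As h2)
  exact le_antisymm ((dimH_mono h).trans (Pool.Agent.X173.NCA.dim_exc hb).le) bot_le

end Pool.Agent.Results.MP_606be1_nt.AlmostAllBases
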