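import Pool.Agent.X173.NCD
import Pool.Agent.X173.NCE

/-!
# Near-coincidences of powers: every excess occurs

`N(x)` is the number of pairs of natural numbers `(n, m)` with `|a ^ n - b ^ m| ≤ x`. For every
base `b > 1` and every nondecreasing `F : ℕ → ℕ` there is a dense set of bases `a > 1` with
`log a / log b` irrational and `N(x) = (log x) ^ 2 / (log a * log b) + F(x) + O(log x)`; for the
bases `a > 1` in a dense `G_δ` set (again with `log a / log b` irrational) `N(x)` is infinite for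
every `x > 0`.
-/

set_option autoImplicit false

namespace Pool.Agent.Results.MP_606be1_nt.GenericBases

open Real

/-- The pairs of natural numbers `(n, m)` with `|a ^ n - b ^ m| ≤ x`. -/
def pairs (a b x : ℝ) : Set (ℕ × ℕ) := {p | |a ^ p.1 - b ^ p.2| ≤ x}

theorem result (b : ℝ) (hb : 1 < b) :
    -- prescribed excess over the expected number, with bases `a` in any given interval
    (∀ F : ℕ → ℕ, Monotone F → ∀ c d : ℝ, 1 ≤ c → c < d →
      ∃ a : ℝ, c < a ∧ a < d ∧ Irrational (log a / log b) ∧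
        ∃ C : ℝ, ∀ x : ℝ, 2 ≤ x → (pairs a b x).Finite ∧
          (F ⌊x⌋₊ : ℝ) - C * log x ≤
            ((pairs a b x).ncard : ℝ) - log x ^ 2 / (log a * log b) ∧
          ((pairs a b x).ncard : ℝ) - log x ^ 2 / (log a * log b) ≤
            (F ⌈x⌉₊ : ℝ) + C * log x) ∧
    -- for generic bases `a` the number of pairs is infinite
    ∃ G : Set ℝ, IsGδ G ∧ Set.Ioi 1 ⊆ closure G ∧ ∀ a ∈ G, 1 < a ∧
      Irrational (log a / log b) ∧ ∀ x : ℝ, 0 < x → (pairs a b x).Infinite := by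
  refine ⟨fun F hF c d hc hcd => ?_, Pool.Agent.X173.NCB.generic hb⟩
  have hG : Monotone (fun k => F k - F 0 + Nat.log 2 (k + 1)) := by
    intro i j hij
    have h1 := hF hij
    have h2 : Nat.log 2 (i + 1) ≤ Nat.log 2 (j + 1) := Nat.log_mono_right (by omega)
    simp only
    omega
  obtain ⟨a, h1, h2, h3, C, h4⟩ := Pool.Agent.X173.NCB.realize hb hc hcd
    (fun k => F k - F 0 + Nat.log 2 (k + 1)) hG (by simp) (fun k => Nat.le_add_left _ _)
  have hl2 : 0 < log 2 := log_pos (by norm_num)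
  refine ⟨a, h1, h2, h3, C + F 0 / log 2 + 2 / log 2, fun x hx => ?_⟩
  obtain ⟨g1, g2, g3⟩ := h4 x hx
  have hlx : log 2 ≤ log x := log_le_log (by norm_num) hx
  have hF0 : (F 0 : ℝ) ≤ F 0 / log 2 * log x := by
    rw [div_mul_eq_mul_div, le_div_iff₀ hl2]
    exact mul_le_mul_of_nonneg_left hlx (Nat.cast_nonneg _)
  have h20 : 0 ≤ 2 / log 2 * log x := mul_nonneg (by positivity) (by linarith)
  have hlow : (F ⌊x⌋₊ : ℝ) ≤ ((F ⌊x⌋₊ - F 0 + Nat.log 2 (⌊x⌋₊ + 1) : ℕ) : ℝ) + F 0 := by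
    have h5 : F ⌊x⌋₊ ≤ (F ⌊x⌋₊ - F 0 + Nat.log 2 (⌊x⌋₊ + 1)) + F 0 := by omega
    exact_mod_cast h5
  have hup : ((F ⌈x⌉₊ - F 0 + Nat.log 2 (⌈x⌉₊ + 1) : ℕ) : ℝ) ≤ F ⌈x⌉₊ + 2 / log 2 * log x := by
    have h5 : ((F ⌈x⌉₊ - F 0 + Nat.log 2 (⌈x⌉₊ + 1) : ℕ) : ℝ) ≤
        F ⌈x⌉₊ + (Nat.log 2 (⌈x⌉₊ + 1) : ℕ) := by
      have : F ⌈x⌉₊ - F 0 + Nat.log 2 (⌈x⌉₊ + 1) ≤ F ⌈x⌉₊ + Nat.log 2 (⌈x⌉₊ + 1) := by omega
      exact_mod_cast this
    refine h5.trans (add_le_add le_rfl ?_)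
    have h6 : ((2 : ℝ)) ^ (Nat.log 2 (⌈x⌉₊ + 1)) ≤ x ^ 2 := by
      have h7 : 2 ^ (Nat.log 2 (⌈x⌉₊ + 1)) ≤ ⌈x⌉₊ + 1 := Nat.pow_log_le_self 2 (by omega)
      have h8 : ((2 : ℝ)) ^ (Nat.log 2 (⌈x⌉₊ + 1)) ≤ (⌈x⌉₊ : ℝ) + 1 := by exact_mod_cast h7
      have h9 := Nat.ceil_lt_add_one (by linarith : (0 : ℝ) ≤ x)
      nlinarith
    have h7 := log_le_log (by positivity) h6
    rw [log_pow, log_pow] at h7
    rw [div_mul_eq_mul_div, le_div_iff₀ hl2]
    exact_mod_cast h7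
  refine ⟨g1, ?_, ?_⟩
  · have e : (C + F 0 / log 2 + 2 / log 2) * log x = C * log x + F 0 / log 2 * log x +
        2 / log 2 * log x := by ring
    rw [e]
    have g2' : ((F ⌊x⌋₊ - F 0 + Nat.log 2 (⌊x⌋₊ + 1) : ℕ) : ℝ) - C * log x ≤
      ((pairs a b x).ncard : ℝ) - log x ^ 2 / (log a * log b) := g2
    linarith
  · have e : (C + F 0 / log 2 + 2 / log 2) * log x = C * log x + F 0 / log 2 * log x +
        2 / log 2 * log x := by ring
    rw [e]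
    have g3' : ((pairs a b x).ncard : ℝ) - log x ^ 2 / (log a * log b) ≤
      ((F ⌈x⌉₊ - F 0 + Nat.log 2 (⌈x⌉₊ + 1) : ℕ) : ℝ) + C * log x := g3
    have h0 : (0 : ℝ) ≤ F 0 / log 2 * log x := by linarith [Nat.cast_nonneg (α := ℝ) (F 0)]
    linarith

end Pool.Agent.Results.MP_606be1_nt.GenericBases
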