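import Mathlib
import Pool.Agent.X173.NCL

/-!
# Near-coincidences of powers: the second term

Let `a, b > 1` (`a = π`, `b = e` in the problem) and let `N(x)` be the number of pairs of natural
numbers `(n, m)` with `|a ^ n - b ^ m| ≤ x`, assumed finite for every `x`. Then `N(x)` is never
below `(log x) ^ 2 / (log a * log b)`, and the excess is at least
`(1 / log a + 1 / log b - ε) * log x` for arbitrarily large `x`. After the primitive near misses
with `|a ^ n - b ^ m| ≤ x` have been removed, the excess divided by `log x` has exactly the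
numbers of `[0, 1 / log a + 1 / log b]` as its limit points.
-/

set_option autoImplicit false

namespace Pool.Agent.Results.MP_606be1_nt.SecondTerm

open Real Filter Asymptotics

/-- The pairs of natural numbers `(n, m)` with `|a ^ n - b ^ m| ≤ x`. -/
def pairs (a b x : ℝ) : Set (ℕ × ℕ) := {p | |a ^ p.1 - b ^ p.2| ≤ x}

/-- The near misses: `n` and `m` are coprime and `|a ^ n - b ^ m| < a ^ (n / 2)`. -/
def nearMisses (a b : ℝ) : Set (ℕ × ℕ) :=
  {p | p.1.Coprime p.2 ∧ |a ^ p.1 - b ^ p.2| ^ 2 < a ^ p.1}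

/-- The near misses with `|a ^ n - b ^ m| ≤ x`. -/
def nearMissesUpTo (a b x : ℝ) : Set (ℕ × ℕ) :=
  {p | p ∈ nearMisses a b ∧ |a ^ p.1 - b ^ p.2| ≤ x}

/-- The number of pairs, minus the number of near misses, minus the main term, divided by
`log x`. -/
noncomputable def err (a b x : ℝ) : ℝ :=
  (((pairs a b x).ncard : ℝ) - ((nearMissesUpTo a b x).ncard : ℝ) -
    log x ^ 2 / (log a * log b)) / log x

theorem result (a b : ℝ) (ha : 1 < a) (hb : 1 < b) (hfin : ∀ x : ℝ, (pairs a b x).Finite) :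
    -- the number of pairs is never below the main term
    (∀ x : ℝ, 1 ≤ x → log x ^ 2 / (log a * log b) ≤ ((pairs a b x).ncard : ℝ)) ∧
    -- and it exceeds it by nearly `(1 / log a + 1 / log b) * log x` for arbitrarily large `x`
    (∀ ε : ℝ, 0 < ε → ∃ᶠ x : ℝ in atTop,
      log x ^ 2 / (log a * log b) + (1 / log a + 1 / log b - ε) * log x ≤
        ((pairs a b x).ncard : ℝ)) ∧
    -- the exact oscillation after the near misses have been removed
    (∀ ε : ℝ, 0 < ε → ∀ᶠ x : ℝ in atTop,
      -ε ≤ err a b x ∧ err a b x ≤ 1 / log a + 1 / log b + ε) ∧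
    (∀ t : ℝ, MapClusterPt t atTop (err a b) ↔ t ∈ Set.Icc 0 (1 / log a + 1 / log b)) ∧
    -- when the near misses are negligible at this scale
    ((∀ ε : ℝ, 0 < ε → ∀ᶠ x : ℝ in atTop, ((pairs a b x).ncard : ℝ) ≤
        log x ^ 2 / (log a * log b) + (1 / log a + 1 / log b + ε) * log x) ↔
      (fun x : ℝ => ((nearMissesUpTo a b x).ncard : ℝ)) =o[atTop] (fun x : ℝ => log x)) := by
  have hirr := Pool.Agent.X173.NCG.irr_of_fin ha hb (hfin 0)
  have hM : ∀ x, (Pool.Agent.X173.NCG.MU a b x).Finite := fun x =>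
    (hfin x).subset (Pool.Agent.X173.NCG.MU_sub a b x)
  have hla : 0 < log a := log_pos ha
  have hlb : 0 < log b := log_pos hb
  refine ⟨fun x hx => Pool.Agent.X173.NCG.lower_all ha hb hx (hfin x), fun ε hε => ?_,
    fun ε hε => ?_, fun t => Pool.Agent.X173.NCG.cluster ha hb hirr hM t,
    Pool.Agent.X173.NCG.criterion ha hb hirr hM⟩
  · have h1 := (Pool.Agent.X173.NCG.cluster ha hb hirr hM (1 / log a + 1 / log b)).2
      ⟨by positivity, le_refl _⟩
    have h2 := (mapClusterPt_iff_frequently.1 h1) (Set.Ioi (1 / log a + 1 / log b - ε))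
      (Ioi_mem_nhds (by linarith))
    refine (h2.and_eventually (eventually_gt_atTop 1)).mono ?_
    rintro x ⟨g1, g2⟩
    have hlx : 0 < log x := Real.log_pos g2
    simp only [Set.mem_Ioi, Pool.Agent.X173.NCG.Dx, Pool.Agent.X173.NCG.W] at g1
    rw [lt_div_iff₀ hlx] at g1
    have g3 : (0 : ℝ) ≤ ((Pool.Agent.X173.NCG.MU a b x).ncard : ℝ) := Nat.cast_nonneg _
    have g4 : (pairs a b x).ncard = (Pool.Agent.X173.NCG.NS a b x).ncard := rfl
    rw [g4]
    linarith
  · obtain ⟨X, -, h⟩ := Pool.Agent.X173.NCG.bounds ha hb hirr hM hε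
    exact eventually_atTop.2 ⟨X, h⟩

end Pool.Agent.Results.MP_606be1_nt.SecondTerm
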